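import Pool.Agent.TH970.GB.Core

/-! The step for the sup norm. -/

set_option autoImplicit false

open Filter

namespace Pool.Agent.TH970.GB

variable {m n : ℕ} {N2 : (Fin n → ℝ) → ℝ}

/-- sign pattern up to a common sign -/
def pat (x : Fin (m + 1) → ℤ) : Fin m → Bool := fun k =>
  xor (decide (0 ≤ x k.succ)) (decide (0 ≤ x 0))

theorem pat_eq (a b : Fin (m + 1) → ℤ) (h : pat a = pat b) :
    ∃ s : ℤ, (s = 1 ∨ s = -1) ∧ ∀ k, 0 ≤ s * (a k * b k) := by
  have hk : ∀ k : Fin m, xor (decide (0 ≤ a k.succ)) (decide (0 ≤ a 0)) =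
      xor (decide (0 ≤ b k.succ)) (decide (0 ≤ b 0)) := fun k => congrFun h k
  have hpos : ∀ x y : ℤ, decide (0 ≤ x) = decide (0 ≤ y) → 0 ≤ x * y := by
    intro x y hxy
    rw [decide_eq_decide] at hxy
    by_cases hx : 0 ≤ x
    · exact mul_nonneg hx (hxy.1 hx)
    · have hy : ¬ 0 ≤ y := fun hy => hx (hxy.2 hy)
      push Not at hx hy
      exact (mul_pos_of_neg_of_neg hx hy).le
  have hneg : ∀ x y : ℤ, decide (0 ≤ x) ≠ decide (0 ≤ y) → x * y ≤ 0 := by
    intro x y hxy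
    by_cases hx : 0 ≤ x
    · by_cases hy : 0 ≤ y
      · exact absurd (by simp [hx, hy]) hxy
      · push Not at hy
        exact mul_nonpos_of_nonneg_of_nonpos hx hy.le
    · by_cases hy : 0 ≤ y
      · push Not at hx
        exact mul_nonpos_of_nonpos_of_nonneg hx.le hy
      · exact absurd (by simp [hx, hy]) hxy
  by_cases h0 : decide (0 ≤ a 0) = decide (0 ≤ b 0)
  · refine ⟨1, Or.inl rfl, fun k => ?_⟩
    rw [one_mul]
    refine Fin.cases (hpos _ _ h0) (fun k => hpos _ _ ?_) k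
    have := hk k
    rw [h0] at this
    exact (by decide : ∀ x y c : Bool, xor x c = xor y c → x = y) _ _ _ this
  · refine ⟨-1, Or.inr rfl, fun k => ?_⟩
    have : a k * b k ≤ 0 := by
      refine Fin.cases (hneg _ _ h0) (fun k => hneg _ _ ?_) k
      intro hc
      have h2 := hk k
      rw [hc] at h2
      exact h0 ((by decide : ∀ x y c : Bool, xor c x = xor c y → x = y) _ _ _ h2)
    linarith

theorem norm_sub_le_of (a b : Fin (m + 1) → ℤ) (s : ℤ) (hs : s = 1 ∨ s = -1)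
    (h : ∀ k, 0 ≤ s * (a k * b k)) (hab : ‖cv a‖ ≤ ‖cv b‖) :
    ‖cv b - (s : ℝ) • cv a‖ ≤ ‖cv b‖ := by
  rw [pi_norm_le_iff_of_nonneg (norm_nonneg _)]
  intro k
  have h1 : |(b k : ℝ)| ≤ ‖cv b‖ := norm_le_pi_norm (cv b) k
  have h2 : |(a k : ℝ)| ≤ ‖cv b‖ := (norm_le_pi_norm (cv a) k).trans hab
  have h3 : (0 : ℝ) ≤ s * (a k * b k) := by exact_mod_cast h k
  rw [Real.norm_eq_abs]
  simp only [Pi.sub_apply, Pi.smul_apply, smul_eq_mul, cv]
  rw [abs_le] at h1 h2 ⊢
  rcases hs with h | h <;> rw [h] at h3 ⊢ <;> push_cast at h3 ⊢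
  · rcases le_total 0 (a k : ℝ) with ha | ha
    · rcases le_total 0 (b k : ℝ) with hb | hb
      · constructor <;> linarith
      · have : (a k : ℝ) * b k = 0 := le_antisymm (mul_nonpos_of_nonneg_of_nonpos ha hb) (by linarith)
        rcases mul_eq_zero.1 this with h0 | h0 <;> rw [h0] at * <;> constructor <;> linarith
    · rcases le_total 0 (b k : ℝ) with hb | hb
      · have : (a k : ℝ) * b k = 0 := le_antisymm (mul_nonpos_of_nonpos_of_nonneg ha hb) (by linarith)
        rcases mul_eq_zero.1 this with h0 | h0 <;> rw [h0] at * <;> constructor <;> linarith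
      · constructor <;> linarith
  · rcases le_total 0 (a k : ℝ) with ha | ha
    · rcases le_total 0 (b k : ℝ) with hb | hb
      · have : (a k : ℝ) * b k = 0 := le_antisymm (by linarith) (mul_nonneg ha hb)
        rcases mul_eq_zero.1 this with h0 | h0 <;> rw [h0] at * <;> constructor <;> linarith
      · constructor <;> linarith
    · rcases le_total 0 (b k : ℝ) with hb | hb
      · constructor <;> linarith
      · have : (a k : ℝ) * b k = 0 := le_antisymm (by linarith) (mul_nonneg_of_nonpos_of_nonpos ha hb)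
        rcases mul_eq_zero.1 this with h0 | h0 <;> rw [h0] at * <;> constructor <;> linarith

theorem stepSup {Θ : Matrix (Fin n) (Fin (m + 1)) ℝ}
    (h1 : IsNorm (fun x : Fin (m + 1) → ℝ => ‖x‖)) (h2 : IsNorm N2)
    (z : ℕ → (Fin (m + 1) → ℤ) × (Fin n → ℤ))
    (hz : ∀ ν, 1 ≤ ν → IsBest (fun x : Fin (m + 1) → ℝ => ‖x‖) N2 Θ (z ν))
    (hM : ∀ i j, 1 ≤ i → i < j → ‖cv (z i).1‖ < ‖cv (z j).1‖) (ν : ℕ) (hν : 1 ≤ ν) :
    2 * ‖cv (z ν).1‖ < ‖cv (z (ν + 2 ^ m * (2 ^ (m + 1 + n) - 1))).1‖ := by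
  classical
  set K := 2 ^ m * (2 ^ (m + 1 + n) - 1) with hK
  have hK1 : K + 2 ^ m = 2 ^ (m + 1 + n) * 2 ^ m := by
    have h3 : 1 ≤ 2 ^ (m + 1 + n) := Nat.one_le_two_pow
    obtain ⟨t, ht⟩ : ∃ t, 2 ^ (m + 1 + n) = t + 1 := ⟨2 ^ (m + 1 + n) - 1, by omega⟩
    rw [hK, ht, Nat.add_sub_cancel]
    ring
  have hM' : ∀ i j, 1 ≤ i → i ≤ j → ‖cv (z i).1‖ ≤ ‖cv (z j).1‖ := by
    intro i j hi hij
    rcases Nat.eq_or_lt_of_le hij with h | h
    · rw [h]
    · exact (hM i j hi h).le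
  let F : Fin (K + 1) ⊕ (Fin m → Bool) →
      ((Fin (m + 1) → ZMod 2) × (Fin n → ZMod 2)) × (Fin m → Bool) := fun x =>
    match x with
    | Sum.inl i => (res 2 (z (ν + i)), pat (z (ν + i)).1)
    | Sum.inr p => (0, p)
  have hcard : Fintype.card (((Fin (m + 1) → ZMod 2) × (Fin n → ZMod 2)) × (Fin m → Bool)) <
      Fintype.card (Fin (K + 1) ⊕ (Fin m → Bool)) := by
    rw [Fintype.card_prod, Fintype.card_prod, Fintype.card_fun, Fintype.card_fun, ZMod.card,
      Fintype.card_fin, Fintype.card_fin, Fintype.card_sum, Fintype.card_fin, Fintype.card_fun,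
      Fintype.card_bool, Fintype.card_fin, ← pow_add, ← hK1]
    omega
  have hzero : ∀ i : ℕ, res 2 (z (ν + i)) = 0 → False := by
    intro i h0
    obtain ⟨w, hw⟩ := exists_div 2 _ h0
    exact primitive h1 h2 (hz (ν + i) (by omega)) 2 (by norm_num) w (by exact_mod_cast hw)
  have hfin : ∀ i j : ℕ, i < j → j < K + 1 → res 2 (z (ν + j)) = res 2 (z (ν + i)) →
      pat (z (ν + i)).1 = pat (z (ν + j)).1 → 2 * ‖cv (z ν).1‖ < ‖cv (z (ν + K)).1‖ := by
    intro i j hij hj h hp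
    obtain ⟨s, hs, hsk⟩ := pat_eq _ _ hp
    have hlt := hM (ν + i) (ν + j) (by omega) (by omega)
    have h3 := norm_sub_le_of _ _ s hs hsk hlt.le
    obtain ⟨w, hw⟩ := exists_div 2 (z (ν + j) - s • z (ν + i)) (by
      rw [res_sub, h]
      rcases hs with h5 | h5
      · rw [h5, one_smul, sub_self]
      · rw [h5, neg_one_smul, sub_neg_eq_add]
        refine Prod.ext ?_ ?_ <;> funext k
        · exact CharTwo.add_self_eq_zero _
        · exact CharTwo.add_self_eq_zero _)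
    have h4 := core h1 h2 (hz (ν + i) (by omega)) (hz (ν + j) (by omega)) hlt 2 s (by norm_num) hs w
      (by exact_mod_cast hw)
    have h5 := hM' ν (ν + i) hν (by omega)
    have h6 := hM' (ν + j) (ν + K) (by omega) (by omega)
    simp only [Int.cast_ofNat] at h4
    linarith
  obtain ⟨x, y, hne, heq⟩ := Fintype.exists_ne_map_eq_of_card_lt F hcard
  match x, y with
  | Sum.inr p, Sum.inr q =>
    exfalso
    apply hne
    have : p = q := congrArg Prod.snd heq
    rw [this]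
  | Sum.inr p, Sum.inl j => exact (hzero j (congrArg Prod.fst heq).symm).elim
  | Sum.inl i, Sum.inr q => exact (hzero i (congrArg Prod.fst heq)).elim
  | Sum.inl i, Sum.inl j =>
    have e1 : res 2 (z (ν + i)) = res 2 (z (ν + j)) := congrArg Prod.fst heq
    have e2 : pat (z (ν + i)).1 = pat (z (ν + j)).1 := congrArg Prod.snd heq
    rcases lt_trichotomy (i : ℕ) (j : ℕ) with h | h | h
    · exact hfin i j h j.2 e1.symm e2
    · exact absurd (by rw [Fin.ext h]) hne
    · exact hfin j i h i.2 e1 e2.symm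

end Pool.Agent.TH970.GB
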