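import Mathlib

/-! Growth of the denominators of best approximations: the two congruence arguments. -/

set_option autoImplicit false

namespace Pool.Agent.TH970.GB

/-- a norm on `ℝ^k` -/
structure IsNorm {k : ℕ} (N : (Fin k → ℝ) → ℝ) : Prop where
  zero_iff : ∀ x, N x = 0 ↔ x = 0
  add_le : ∀ x y, N (x + y) ≤ N x + N y
  smul : ∀ (r : ℝ) (x : Fin k → ℝ), N (r • x) = |r| * N x

variable {m n : ℕ}

/-- integer vectors as real vectors -/
def cv {k : ℕ} (x : Fin k → ℤ) : Fin k → ℝ := fun i => (x i : ℝ)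

/-- `Θ x - y` -/
noncomputable def vec (Θ : Matrix (Fin n) (Fin m) ℝ) (z : (Fin m → ℤ) × (Fin n → ℤ)) : Fin n → ℝ :=
  Θ.mulVec (cv z.1) - cv z.2

/-- `z = (x, y)` is a best approximation vector: `x ≠ 0` and the only integer points `(x', y')`
with `|x'| ≤ |x|` and `|Θ x' - y'| ≤ |Θ x - y|` are `0` and `±z`. -/
def IsBest (N1 : (Fin m → ℝ) → ℝ) (N2 : (Fin n → ℝ) → ℝ) (Θ : Matrix (Fin n) (Fin m) ℝ)
    (z : (Fin m → ℤ) × (Fin n → ℤ)) : Prop :=
  z.1 ≠ 0 ∧ ∀ z' : (Fin m → ℤ) × (Fin n → ℤ), N1 (cv z'.1) ≤ N1 (cv z.1) →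
    N2 (vec Θ z') ≤ N2 (vec Θ z) → z' = 0 ∨ z' = z ∨ z' = -z

theorem cv_sub {k : ℕ} (a b : Fin k → ℤ) : cv (a - b) = cv a - cv b := by
  funext i; simp [cv]

theorem cv_smul {k : ℕ} (c : ℤ) (a : Fin k → ℤ) : cv (c • a) = (c : ℝ) • cv a := by
  funext i; simp [cv]

theorem vec_sub (Θ : Matrix (Fin n) (Fin m) ℝ) (a b : (Fin m → ℤ) × (Fin n → ℤ)) :
    vec Θ (a - b) = vec Θ a - vec Θ b := by
  unfold vec
  rw [Prod.fst_sub, Prod.snd_sub, cv_sub, cv_sub, Matrix.mulVec_sub]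
  abel

theorem vec_smul (Θ : Matrix (Fin n) (Fin m) ℝ) (c : ℤ) (a : (Fin m → ℤ) × (Fin n → ℤ)) :
    vec Θ (c • a) = (c : ℝ) • vec Θ a := by
  unfold vec
  rw [Prod.smul_fst, Prod.smul_snd, cv_smul, cv_smul, Matrix.mulVec_smul, smul_sub]

theorem IsNorm.nonneg {k : ℕ} {N : (Fin k → ℝ) → ℝ} (h : IsNorm N) (x : Fin k → ℝ) : 0 ≤ N x := by
  have h1 := h.add_le x ((-1 : ℝ) • x)
  rw [h.smul] at h1
  have h2 : x + (-1 : ℝ) • x = 0 := by simp
  rw [h2, (h.zero_iff 0).2 rfl] at h1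
  norm_num at h1
  linarith

theorem IsNorm.sub_le {k : ℕ} {N : (Fin k → ℝ) → ℝ} (h : IsNorm N) (x y : Fin k → ℝ) :
    N (x - y) ≤ N x + N y := by
  have h1 := h.add_le x ((-1 : ℝ) • y)
  rw [h.smul] at h1
  have h2 : x + (-1 : ℝ) • y = x - y := by rw [neg_one_smul]; abel
  rw [h2] at h1
  norm_num at h1
  exact h1

variable {N1 : (Fin m → ℝ) → ℝ} {N2 : (Fin n → ℝ) → ℝ} {Θ : Matrix (Fin n) (Fin m) ℝ}

theorem len_pos (h1 : IsNorm N1) {a : (Fin m → ℤ) × (Fin n → ℤ)} (ha : IsBest N1 N2 Θ a) :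
    0 < N1 (cv a.1) := by
  apply lt_of_le_of_ne (h1.nonneg _)
  intro h
  apply ha.1
  have := (h1.zero_iff _).1 h.symm
  funext i
  have h2 := congrFun this i
  simpa [cv] using h2

theorem err_lt (h1 : IsNorm N1) {a b : (Fin m → ℤ) × (Fin n → ℤ)}
    (ha : IsBest N1 N2 Θ a) (hb : IsBest N1 N2 Θ b) (hab : N1 (cv a.1) < N1 (cv b.1)) :
    N2 (vec Θ b) < N2 (vec Θ a) := by
  by_contra hle
  push Not at hle
  rcases hb.2 a hab.le hle with h | h | h
  · apply ha.1; rw [h]; rfl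
  · rw [h] at hab; exact lt_irrefl _ hab
  · have e : cv a.1 = (-1 : ℝ) • cv b.1 := by
      rw [h]; funext i; simp [cv]
    rw [e, h1.smul] at hab
    norm_num at hab

theorem core (h1 : IsNorm N1) (h2 : IsNorm N2) {a b : (Fin m → ℤ) × (Fin n → ℤ)}
    (ha : IsBest N1 N2 Θ a) (hb : IsBest N1 N2 Θ b) (hab : N1 (cv a.1) < N1 (cv b.1))
    (q s : ℤ) (hq : 2 ≤ q) (hs : s = 1 ∨ s = -1) (w : (Fin m → ℤ) × (Fin n → ℤ))
    (hw : q • w = b - s • a) :
    (q : ℝ) * N1 (cv a.1) < N1 (cv b.1 - (s : ℝ) • cv a.1) := by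
  have herr := err_lt h1 ha hb hab
  have hb0 := h2.nonneg (vec Θ b)
  have hq0 : (2 : ℝ) ≤ q := by exact_mod_cast hq
  have hqp : (0 : ℝ) < q := by linarith
  have hsabs : |(s : ℝ)| = 1 := by rcases hs with h | h <;> rw [h] <;> norm_num
  by_contra hle
  push Not at hle
  have e1 : (q : ℝ) • cv w.1 = cv b.1 - (s : ℝ) • cv a.1 := by
    have := congrArg Prod.fst hw
    rw [Prod.smul_fst, Prod.fst_sub, Prod.smul_fst] at this
    rw [← cv_smul, this, cv_sub, cv_smul]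
  have e2 : (q : ℝ) • vec Θ w = vec Θ b - (s : ℝ) • vec Θ a := by
    rw [← vec_smul, hw, vec_sub, vec_smul]
  have l1 : (q : ℝ) * N1 (cv w.1) ≤ q * N1 (cv a.1) := by
    have h := h1.smul q (cv w.1)
    rw [abs_of_pos hqp, e1] at h
    linarith
  have l1' : N1 (cv w.1) ≤ N1 (cv a.1) := le_of_mul_le_mul_left l1 hqp
  have l2 : (q : ℝ) * N2 (vec Θ w) ≤ q * N2 (vec Θ a) := by
    have h := h2.smul q (vec Θ w)
    rw [abs_of_pos hqp, e2] at h
    have h3 := h2.sub_le (vec Θ b) ((s : ℝ) • vec Θ a)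
    rw [h2.smul, hsabs, one_mul] at h3
    nlinarith
  have l2' : N2 (vec Θ w) ≤ N2 (vec Θ a) := le_of_mul_le_mul_left l2 hqp
  have key : ∀ c : ℤ, b = c • a → 1 ≤ |c| → False := by
    intro c hc h1c
    rw [hc, vec_smul, h2.smul] at herr
    have h3 : (1 : ℝ) ≤ |(c : ℝ)| := by exact_mod_cast h1c
    have h4 := h2.nonneg (vec Θ a)
    nlinarith
  rcases ha.2 w l1' l2' with h | h | h
  · rw [h, smul_zero] at hw
    apply key s (sub_eq_zero.1 hw.symm)
    rcases hs with h | h <;> rw [h] <;> norm_num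
  · rw [h] at hw
    apply key (q + s)
    · rw [add_smul, hw]; abel
    · rw [abs_of_nonneg] <;> rcases hs with h | h <;> rw [h] <;> omega
  · rw [h] at hw
    apply key (s - q)
    · rw [sub_smul]
      have : q • a = -(b - s • a) := by rw [← hw, smul_neg, neg_neg]
      rw [this]; abel
    · rw [abs_of_nonpos] <;> rcases hs with h | h <;> rw [h] <;> omega

theorem primitive (h1 : IsNorm N1) (h2 : IsNorm N2) {a : (Fin m → ℤ) × (Fin n → ℤ)}
    (ha : IsBest N1 N2 Θ a) (q : ℤ) (hq : 2 ≤ q) (w : (Fin m → ℤ) × (Fin n → ℤ))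
    (hw : q • w = a) : False := by
  have hpos := len_pos h1 ha
  have hq0 : (2 : ℝ) ≤ q := by exact_mod_cast hq
  have hqp : (0 : ℝ) < q := by linarith
  have e1 : N1 (cv a.1) = q * N1 (cv w.1) := by
    rw [← hw, Prod.smul_fst, cv_smul, h1.smul, abs_of_pos hqp]
  have e2 : N2 (vec Θ a) = q * N2 (vec Θ w) := by
    rw [← hw, vec_smul, h2.smul, abs_of_pos hqp]
  have n1 := h1.nonneg (cv w.1)
  have n2 := h2.nonneg (vec Θ w)
  have key : ∀ c : ℤ, w = c • a → |c| ≤ 1 → False := by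
    intro c hc h1c
    have e3 : N1 (cv w.1) = |(c : ℝ)| * N1 (cv a.1) := by
      conv_lhs => rw [hc]
      rw [Prod.smul_fst, cv_smul, h1.smul]
    have h3 : |(c : ℝ)| ≤ 1 := by exact_mod_cast h1c
    have h4 := abs_nonneg (c : ℝ)
    by_cases hc0 : c = 0
    · rw [hc0, zero_smul] at hc
      rw [hc, smul_zero] at hw
      apply ha.1; rw [← hw]; rfl
    · have h5 : (1 : ℝ) ≤ |(c : ℝ)| := by exact_mod_cast Int.one_le_abs hc0
      nlinarith
  rcases ha.2 w (by nlinarith) (by nlinarith) with h | h | h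
  · exact key 0 (by rw [zero_smul]; exact h) (by norm_num)
  · exact key 1 (by rw [one_smul]; exact h) (by norm_num)
  · exact key (-1) (by rw [neg_one_smul]; exact h) (by norm_num)

/-- residues modulo `q` -/
def res (q : ℕ) (z : (Fin m → ℤ) × (Fin n → ℤ)) : (Fin m → ZMod q) × (Fin n → ZMod q) :=
  (fun i => (z.1 i : ZMod q), fun j => (z.2 j : ZMod q))

theorem exists_div (q : ℕ) (z : (Fin m → ℤ) × (Fin n → ℤ)) (h : res q z = 0) :
    ∃ w : (Fin m → ℤ) × (Fin n → ℤ), (q : ℤ) • w = z := by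
  have h1 : ∀ i, (q : ℤ) ∣ z.1 i := by
    intro i
    rw [← ZMod.intCast_zmod_eq_zero_iff_dvd]
    exact congrFun (congrArg Prod.fst h) i
  have h2 : ∀ i, (q : ℤ) ∣ z.2 i := by
    intro i
    rw [← ZMod.intCast_zmod_eq_zero_iff_dvd]
    exact congrFun (congrArg Prod.snd h) i
  choose w1 hw1 using h1
  choose w2 hw2 using h2
  refine ⟨(w1, w2), Prod.ext ?_ ?_⟩
  · funext i; simp [hw1 i]
  · funext i; simp [hw2 i]

theorem res_sub (q : ℕ) (a b : (Fin m → ℤ) × (Fin n → ℤ)) (s : ℤ) :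
    res q (b - s • a) = res q b - (s : ℤ) • res q a := by
  refine Prod.ext ?_ ?_ <;> funext i <;> simp [res]

end Pool.Agent.TH970.GB
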