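import Pool.Agent.TH970.GB.Core

/-! Best approximations of a vector in the plane: seven steps. -/

set_option autoImplicit false

open Filter

namespace Pool.Agent.TH970.GB.Plane

open Pool.Agent.TH970.GB

/-- the error `|x Θ - y|` -/
noncomputable def er (N : (Fin 2 → ℝ) → ℝ) (θ : Fin 2 → ℝ) (z : ℤ × (Fin 2 → ℤ)) : ℝ :=
  N (fun k => (z.1 : ℝ) * θ k - (z.2 k : ℝ))

/-- best approximation vector -/
def Best (N : (Fin 2 → ℝ) → ℝ) (θ : Fin 2 → ℝ) (z : ℤ × (Fin 2 → ℤ)) : Prop :=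
  z ≠ 0 ∧ ∀ z' : ℤ × (Fin 2 → ℤ), |z'.1| ≤ |z.1| → er N θ z' ≤ er N θ z →
    z' = 0 ∨ z' = z ∨ z' = -z

/-- enumeration of the best approximation vectors -/
def IsEnum (N : (Fin 2 → ℝ) → ℝ) (θ : Fin 2 → ℝ) (z : ℕ → ℤ × (Fin 2 → ℤ)) : Prop :=
  (∀ ν, 1 ≤ ν → Best N θ (z ν)) ∧ (∀ i j, 1 ≤ i → i < j → |(z i).1| < |(z j).1|) ∧
    (∀ v, Best N θ v → ∃ ν, 1 ≤ ν ∧ (v = z ν ∨ v = -z ν))

variable {N : (Fin 2 → ℝ) → ℝ} {θ : Fin 2 → ℝ}

theorem upper_bd (hN : IsNorm N) : ∃ C : ℝ, 0 < C ∧ ∀ x, N x ≤ C * ‖x‖ := by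
  refine ⟨N (Pi.single 0 1) + N (Pi.single 1 1) + 1, by
    have := hN.nonneg (Pi.single 0 1); have := hN.nonneg (Pi.single 1 1); linarith, fun x => ?_⟩
  have e : x = x 0 • Pi.single 0 1 + x 1 • Pi.single 1 1 := by
    funext k
    fin_cases k <;> simp
  have h1 := hN.add_le (x 0 • Pi.single 0 1) (x 1 • Pi.single 1 1)
  rw [← e, hN.smul, hN.smul] at h1
  have h2 : |x 0| ≤ ‖x‖ := norm_le_pi_norm x 0
  have h3 : |x 1| ≤ ‖x‖ := norm_le_pi_norm x 1
  have p0 := hN.nonneg (Pi.single 0 1)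
  have p1 := hN.nonneg (Pi.single 1 1)
  have h4 := mul_le_mul_of_nonneg_right h2 p0
  have h5 := mul_le_mul_of_nonneg_right h3 p1
  have h6 := norm_nonneg x
  nlinarith

theorem lower_bd (hN : IsNorm N) : ∃ c : ℝ, 0 < c ∧ ∀ x, c * ‖x‖ ≤ N x := by
  obtain ⟨C, hC, hu⟩ := upper_bd hN
  have hcont : Continuous N := by
    rw [Metric.continuous_iff]
    intro b ε hε
    refine ⟨ε / C, div_pos hε hC, fun a ha => ?_⟩
    rw [Real.dist_eq, abs_lt]
    rw [dist_eq_norm, lt_div_iff₀ hC] at ha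
    have h1 := hN.add_le (a - b) b
    have h2 := hN.sub_le a (a - b)
    rw [sub_add_cancel] at h1
    rw [sub_sub_cancel] at h2
    have h3 := hu (a - b)
    constructor <;> linarith
  obtain ⟨x0, hx0, hmin⟩ := (isCompact_sphere (0 : Fin 2 → ℝ) 1).exists_isMinOn
    (NormedSpace.sphere_nonempty.2 zero_le_one) hcont.continuousOn
  have hx1 : ‖x0‖ = 1 := by simpa using hx0
  refine ⟨N x0, ?_, fun x => ?_⟩
  · apply lt_of_le_of_ne (hN.nonneg _)
    intro h
    have := (hN.zero_iff x0).1 h.symm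
    rw [this, norm_zero] at hx1
    exact zero_ne_one hx1
  · by_cases hx : x = 0
    · rw [hx, norm_zero, mul_zero]; exact hN.nonneg _
    · have hxn : 0 < ‖x‖ := norm_pos_iff.2 hx
      have hmem : ‖x‖⁻¹ • x ∈ Metric.sphere (0 : Fin 2 → ℝ) 1 := by
        rw [mem_sphere_zero_iff_norm, norm_smul, norm_inv, norm_norm, inv_mul_cancel₀ hxn.ne']
      have h1 : N x0 ≤ N (‖x‖⁻¹ • x) := hmin hmem
      rw [hN.smul, abs_of_pos (inv_pos.2 hxn), inv_mul_eq_div, le_div_iff₀ hxn] at h1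
      exact h1

theorem min_int (hN : IsNorm N) : ∃ c0 : ℝ, 0 < c0 ∧ ∀ y : Fin 2 → ℤ, y ≠ 0 →
    c0 ≤ N (fun k => (y k : ℝ)) := by
  obtain ⟨c, hc, h⟩ := lower_bd hN
  refine ⟨c, hc, fun y hy => ?_⟩
  have h1 : (1 : ℝ) ≤ ‖fun k => (y k : ℝ)‖ := by
    obtain ⟨k, hk⟩ : ∃ k, y k ≠ 0 := by
      by_contra hcon
      push Not at hcon
      exact hy (funext hcon)
    have h2 := norm_le_pi_norm (fun k => (y k : ℝ)) k
    have h3 : (1 : ℝ) ≤ |(y k : ℝ)| := by exact_mod_cast Int.one_le_abs hk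
    exact h3.trans h2
  have h2 := h (fun k => (y k : ℝ))
  nlinarith

theorem dirichlet (θ : Fin 2 → ℝ) (ε : ℝ) (hε : 0 < ε) :
    ∃ u : ℤ × (Fin 2 → ℤ), u.1 ≠ 0 ∧ ∀ k, |(u.1 : ℝ) * θ k - u.2 k| ≤ ε := by
  obtain ⟨Q2, hQ2⟩ := exists_nat_gt (1 / ε)
  have hQ2p : (0 : ℝ) < Q2 := lt_trans (by positivity) hQ2
  have hQ2n : 0 < Q2 := by exact_mod_cast hQ2p
  obtain ⟨Q1, hQ1⟩ := exists_nat_gt (Q2 / ε)
  have hQ1p : (0 : ℝ) < Q1 := lt_trans (by positivity) hQ1
  have hQ1n : 0 < Q1 := by exact_mod_cast hQ1p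
  obtain ⟨p1, q1, hq1, hq1', h1⟩ := Real.exists_int_int_abs_mul_sub_le (θ 0) hQ1n
  obtain ⟨p2, q2, hq2, hq2', h2⟩ := Real.exists_int_int_abs_mul_sub_le ((q1 : ℝ) * θ 1) hQ2n
  have hq2r : (0 : ℝ) < q2 := by exact_mod_cast hq2
  have hq2Q : (q2 : ℝ) ≤ Q2 := by exact_mod_cast hq2'
  refine ⟨(q2 * q1, ![q2 * p1, p2]), mul_ne_zero hq2.ne' hq1.ne', fun k => ?_⟩
  fin_cases k
  · simp only [Fin.zero_eta, Matrix.cons_val_zero]
    push_cast
    have e : (q2 : ℝ) * q1 * θ 0 - q2 * p1 = q2 * (q1 * θ 0 - p1) := by ring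
    rw [e, abs_mul, abs_of_pos hq2r]
    have h3 : (q2 : ℝ) * |q1 * θ 0 - p1| ≤ Q2 * (1 / (Q1 + 1)) :=
      mul_le_mul hq2Q h1 (abs_nonneg _) hQ2p.le
    refine h3.trans ?_
    rw [mul_one_div, div_le_iff₀ (by linarith)]
    rw [div_lt_iff₀ hε] at hQ1
    nlinarith
  · simp only [Fin.mk_one, Matrix.cons_val_one]
    push_cast
    have e : (q2 : ℝ) * q1 * θ 1 - p2 = q2 * (q1 * θ 1) - p2 := by ring
    rw [e]
    refine h2.trans ?_
    rw [div_le_iff₀ (by linarith)]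
    rw [div_lt_iff₀ hε] at hQ2
    nlinarith

theorem er_lin (hN : IsNorm N) (q s : ℤ) (w a b : ℤ × (Fin 2 → ℤ)) (h : q • w = b - s • a) :
    |(q : ℝ)| * er N θ w ≤ er N θ b + |(s : ℝ)| * er N θ a := by
  unfold er
  rw [← hN.smul, ← hN.smul]
  have e : (q : ℝ) • (fun k => (w.1 : ℝ) * θ k - (w.2 k : ℝ)) =
      (fun k => (b.1 : ℝ) * θ k - (b.2 k : ℝ)) - (s : ℝ) • (fun k => (a.1 : ℝ) * θ k - (a.2 k : ℝ)) := by
    funext k
    have h1 : q * w.1 = b.1 - s * a.1 := by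
      have := congrArg Prod.fst h
      simpa using this
    have h2 : q * w.2 k = b.2 k - s * a.2 k := by
      have := congrFun (congrArg Prod.snd h) k
      simpa using this
    have h1' : (q : ℝ) * w.1 = b.1 - s * a.1 := by exact_mod_cast h1
    have h2' : (q : ℝ) * w.2 k = b.2 k - s * a.2 k := by exact_mod_cast h2
    simp only [Pi.smul_apply, Pi.sub_apply, smul_eq_mul]
    linear_combination θ k * h1' - h2'
  rw [e]
  exact hN.sub_le _ _

theorem er_lt {a b : ℤ × (Fin 2 → ℤ)} (ha : Best N θ a) (hb : Best N θ b) (hab : |a.1| < |b.1|) :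
    er N θ b < er N θ a := by
  by_contra hle
  push Not at hle
  rcases hb.2 a hab.le hle with h | h | h
  · exact ha.1 h
  · rw [h] at hab; exact lt_irrefl _ hab
  · rw [h, Prod.fst_neg, abs_neg] at hab; exact lt_irrefl _ hab

theorem complete (hN : IsNorm N) (z : ℕ → ℤ × (Fin 2 → ℤ)) (hz : IsEnum N θ z) :
    ∃ ν0 : ℕ, 2 ≤ ν0 ∧ ∀ i, ν0 ≤ i → ∀ w : ℤ × (Fin 2 → ℤ), w ≠ 0 → er N θ w < er N θ (z i) →
      |(z (i + 1)).1| ≤ |w.1| := by
  obtain ⟨c0, hc0, hmin⟩ := min_int hN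
  obtain ⟨C, hC, hu⟩ := upper_bd hN
  obtain ⟨u, hu1, hu2⟩ := dirichlet θ (c0 / (3 * C)) (by positivity)
  have hue : er N θ u < c0 / 2 := by
    unfold er
    refine lt_of_le_of_lt (hu _) ?_
    have h1 : ‖fun k => (u.1 : ℝ) * θ k - (u.2 k : ℝ)‖ ≤ c0 / (3 * C) := by
      rw [pi_norm_le_iff_of_nonneg (by positivity)]
      intro k
      exact hu2 k
    calc C * ‖fun k => (u.1 : ℝ) * θ k - (u.2 k : ℝ)‖ ≤ C * (c0 / (3 * C)) :=
          mul_le_mul_of_nonneg_left h1 hC.le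
      _ = c0 / 3 := by field_simp
      _ < c0 / 2 := by linarith
  have hge : ∀ ν : ℕ, 1 ≤ ν → (ν : ℤ) - 1 ≤ |(z ν).1| := by
    intro ν hν
    induction ν, hν using Nat.le_induction with
    | base => simp
    | succ ν hν ih =>
      have := hz.2.1 ν (ν + 1) hν (by omega)
      push_cast
      omega
  refine ⟨u.1.natAbs + 2, by omega, fun i hi w hw hwe => ?_⟩
  have hi1 : 1 ≤ i := by omega
  have hxi : |u.1| ≤ |(z i).1| := by
    have := hge i hi1
    rw [Int.abs_eq_natAbs u.1]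
    omega
  have hei : er N θ (z i) < c0 / 2 := by
    by_contra hcon
    push Not at hcon
    rcases (hz.1 i hi1).2 u hxi (by linarith) with h | h | h
    · exact hu1 (by rw [h]; rfl)
    · rw [h] at hue; linarith
    · have e : er N θ u = er N θ (z i) := by
        have h3 := er_lin (θ := θ) hN (-1) 0 u 0 (z i) (by rw [h]; simp)
        have h4 := er_lin (θ := θ) hN (-1) 0 (z i) 0 u (by rw [h]; simp)
        simp only [Int.cast_neg, Int.cast_one, Int.cast_zero, abs_neg, abs_one, abs_zero, one_mul,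
          zero_mul, add_zero] at h3 h4
        linarith
      linarith
  by_contra hlt
  push Not at hlt
  -- the minimal |x| among the vectors with error at most that of w
  have hex : ∃ X : ℕ, ∃ v : ℤ × (Fin 2 → ℤ), v ≠ 0 ∧ v.1.natAbs = X ∧ er N θ v ≤ er N θ w :=
    ⟨w.1.natAbs, w, hw, rfl, le_rfl⟩
  classical
  obtain ⟨v, hv0, hvX, hve⟩ := Nat.find_spec hex
  have hvmin : ∀ v' : ℤ × (Fin 2 → ℤ), v' ≠ 0 → er N θ v' ≤ er N θ w → |v.1| ≤ |v'.1| := by
    intro v' h1 h2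
    have h3 : v.1.natAbs ≤ v'.1.natAbs := by
      rw [hvX]; exact Nat.find_min' hex ⟨v', h1, rfl, h2⟩
    rw [Int.abs_eq_natAbs, Int.abs_eq_natAbs]
    exact_mod_cast h3
  have huniq : ∀ a : ℤ × (Fin 2 → ℤ), ∀ b : ℤ × (Fin 2 → ℤ), a.1 = b.1 → er N θ a ≤ er N θ w →
      er N θ b ≤ er N θ w → a = b := by
    intro a b h1 h2 h3
    have h4 := er_lin (θ := θ) hN 1 1 (b - a) a b (by simp)
    simp only [Int.cast_one, abs_one, one_mul] at h4
    by_contra hne
    have h5 : (fun k => a.2 k - b.2 k) ≠ (0 : Fin 2 → ℤ) := by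
      intro h0
      apply hne
      refine Prod.ext h1 (funext fun k => ?_)
      have := congrFun h0 k
      simp only [Pi.zero_apply] at this
      linarith
    have h6 := hmin _ h5
    have h7 : er N θ (b - a) = N (fun k => ((a.2 k - b.2 k : ℤ) : ℝ)) := by
      unfold er
      congr 1
      funext k
      simp only [Prod.fst_sub, Prod.snd_sub, Pi.sub_apply, h1, sub_self]
      push_cast
      ring
    rw [h7] at h4
    linarith
  have hneg : ∀ a : ℤ × (Fin 2 → ℤ), er N θ (-a) = er N θ a := by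
    intro a
    have h3 := er_lin (θ := θ) hN (-1) 0 (-a) 0 a (by simp)
    have h4 := er_lin (θ := θ) hN (-1) 0 a 0 (-a) (by simp)
    simp only [Int.cast_neg, Int.cast_one, Int.cast_zero, abs_neg, abs_one, abs_zero, one_mul,
      zero_mul, add_zero] at h3 h4
    linarith
  have hvb : Best N θ v := by
    refine ⟨hv0, fun v' h1 h2 => ?_⟩
    by_cases h0 : v' = 0
    · exact Or.inl h0
    · right
      have h3 := hvmin v' h0 (h2.trans hve)
      have h4 : |v'.1| = |v.1| := le_antisymm h1 h3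
      rcases abs_eq_abs.1 h4 with h5 | h5
      · left; exact huniq v' v h5 (h2.trans hve) hve
      · right
        apply huniq v' (-v) (by rw [h5]; rfl) (h2.trans hve)
        rw [hneg]; exact hve
  obtain ⟨k, hk, hvk⟩ := hz.2.2 v hvb
  have hvabs : |v.1| = |(z k).1| := by
    rcases hvk with h | h <;> rw [h]
    rw [Prod.fst_neg, abs_neg]
  have hver : er N θ v = er N θ (z k) := by
    rcases hvk with h | h <;> rw [h]
    exact hneg _
  have hki : k ≤ i := by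
    by_contra hcon
    push Not at hcon
    have h1 : |(z (i + 1)).1| ≤ |(z k).1| := by
      rcases Nat.eq_or_lt_of_le (show i + 1 ≤ k by omega) with h | h
      · rw [h]
      · exact (hz.2.1 (i + 1) k (by omega) h).le
    have h2 := hvmin w hw le_rfl
    omega
  have h1 : er N θ (z i) ≤ er N θ (z k) := by
    rcases Nat.eq_or_lt_of_le hki with h | h
    · rw [h]
    · exact (er_lt (hz.1 k hk) (hz.1 i hi1) (hz.2.1 k i hk h)).le
  linarith

/-- residues modulo 2 -/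
def rs (z : ℤ × (Fin 2 → ℤ)) : ZMod 2 × (Fin 2 → ZMod 2) := ((z.1 : ZMod 2), fun k => (z.2 k : ZMod 2))

theorem rs_div (z : ℤ × (Fin 2 → ℤ)) (h : rs z = 0) : ∃ w, (2 : ℤ) • w = z := by
  obtain ⟨a, ha⟩ : (2 : ℤ) ∣ z.1 := by
    have : ((z.1 : ℤ) : ZMod 2) = 0 := congrArg Prod.fst h
    exact_mod_cast (ZMod.intCast_zmod_eq_zero_iff_dvd z.1 2).1 this
  have h2 : ∀ k, (2 : ℤ) ∣ z.2 k := by
    intro k
    have : ((z.2 k : ℤ) : ZMod 2) = 0 := congrFun (congrArg Prod.snd h) k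
    exact_mod_cast (ZMod.intCast_zmod_eq_zero_iff_dvd (z.2 k) 2).1 this
  choose b hb using h2
  refine ⟨(a, b), Prod.ext ?_ (funext fun k => ?_)⟩
  · simp [ha]
  · simp [hb k]

theorem rs_ne (hN : IsNorm N) {a : ℤ × (Fin 2 → ℤ)} (ha : Best N θ a) : rs a ≠ 0 := by
  intro h
  obtain ⟨w, hw⟩ := rs_div a h
  have h0 : ∀ x, 0 ≤ er N θ x := fun x => hN.nonneg _
  have h1 := er_lin (θ := θ) hN 2 0 w 0 a (by rw [hw]; simp)
  simp only [Int.cast_ofNat, Int.cast_zero, abs_zero, zero_mul, add_zero] at h1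
  have h2 : |(2 : ℝ)| = 2 := by norm_num
  rw [h2] at h1
  have hx : a.1 = 2 * w.1 := by rw [← hw]; simp
  have hy : ∀ k, a.2 k = 2 * w.2 k := by intro k; rw [← hw]; simp
  have e1 : |w.1| ≤ |a.1| := by
    rw [hx, abs_mul]
    have : |(2 : ℤ)| = 2 := by norm_num
    rw [this]
    have := abs_nonneg w.1
    omega
  rcases ha.2 w e1 (by linarith [h0 w]) with h | h | h
  · apply ha.1; rw [← hw, h, smul_zero]
  · apply ha.1
    refine Prod.ext ?_ (funext fun k => ?_)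
    · have := congrArg Prod.fst h
      simp only [Prod.fst_zero]; omega
    · have := congrFun (congrArg Prod.snd h) k
      have h4 := hy k
      simp only [Prod.snd_zero, Pi.zero_apply]; omega
  · apply ha.1
    refine Prod.ext ?_ (funext fun k => ?_)
    · have := congrArg Prod.fst h
      simp only [Prod.fst_neg] at this
      simp only [Prod.fst_zero]; omega
    · have := congrFun (congrArg Prod.snd h) k
      simp only [Prod.snd_neg, Pi.neg_apply] at this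
      have h4 := hy k
      simp only [Prod.snd_zero, Pi.zero_apply]; omega

theorem seven (hN : IsNorm N) (z : ℕ → ℤ × (Fin 2 → ℤ)) (hz : IsEnum N θ z) :
    ∃ ν0 : ℕ, 2 ≤ ν0 ∧ ∀ ν, ν0 ≤ ν → 2 * |(z (ν + 1)).1| + |(z ν).1| ≤ |(z (ν + 7)).1| := by
  classical
  obtain ⟨ν0, hν0, hc⟩ := complete hN z hz
  refine ⟨ν0, hν0, fun ν hν => ?_⟩
  have hM' : ∀ i j, 1 ≤ i → i ≤ j → |(z i).1| ≤ |(z j).1| := by
    intro i j hi hij
    rcases Nat.eq_or_lt_of_le hij with h | h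
    · rw [h]
    · exact (hz.2.1 i j hi h).le
  have hfin : ∀ i j : ℕ, i < j → j < 8 → rs (z (ν + j)) = rs (z (ν + i)) →
      2 * |(z (ν + 1)).1| + |(z ν).1| ≤ |(z (ν + 7)).1| := by
    intro i j hij hj h
    have hlt := hz.2.1 (ν + i) (ν + j) (by omega) (by omega)
    obtain ⟨s, hs, hsx⟩ : ∃ s : ℤ, (s = 1 ∨ s = -1) ∧
        |(z (ν + j)).1 - s * (z (ν + i)).1| = |(z (ν + j)).1| - |(z (ν + i)).1| := by
      rcases abs_cases (z (ν + i)).1 with ⟨h1, h2⟩ | ⟨h1, h2⟩ <;>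
      rcases abs_cases (z (ν + j)).1 with ⟨h3, h4⟩ | ⟨h3, h4⟩
      · exact ⟨1, Or.inl rfl, by rw [abs_of_nonneg (by omega)]; omega⟩
      · exact ⟨-1, Or.inr rfl, by rw [abs_of_nonpos (by omega)]; omega⟩
      · exact ⟨-1, Or.inr rfl, by rw [abs_of_nonneg (by omega)]; omega⟩
      · exact ⟨1, Or.inl rfl, by rw [abs_of_nonpos (by omega)]; omega⟩
    obtain ⟨w, hw⟩ := rs_div (z (ν + j) - s • z (ν + i)) (by
      have h5 : rs (z (ν + j) - s • z (ν + i)) = rs (z (ν + j)) - s • rs (z (ν + i)) := by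
        refine Prod.ext ?_ (funext fun k => ?_) <;> simp [rs]
      rw [h5, h]
      rcases hs with h6 | h6
      · rw [h6, one_smul, sub_self]
      · rw [h6, neg_one_smul, sub_neg_eq_add]
        refine Prod.ext ?_ (funext fun k => ?_)
        · exact CharTwo.add_self_eq_zero _
        · exact CharTwo.add_self_eq_zero _)
    have hwx : 2 * |w.1| = |(z (ν + j)).1| - |(z (ν + i)).1| := by
      have h6 : 2 * w.1 = (z (ν + j)).1 - s * (z (ν + i)).1 := by
        have := congrArg Prod.fst hw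
        simpa using this
      rw [← hsx, ← h6, abs_mul]
      norm_num
    have hw0 : w ≠ 0 := by
      rintro rfl
      simp only [Prod.fst_zero, abs_zero, mul_zero] at hwx
      omega
    have hwe : er N θ w < er N θ (z (ν + i)) := by
      have h6 := er_lin (θ := θ) hN 2 s w (z (ν + i)) (z (ν + j)) hw
      have hsabs : |(s : ℝ)| = 1 := by rcases hs with h | h <;> rw [h] <;> norm_num
      have h2 : |((2 : ℤ) : ℝ)| = 2 := by norm_num
      rw [hsabs, h2, one_mul] at h6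
      have h7 := er_lt (hz.1 _ (by omega)) (hz.1 _ (by omega)) hlt
      linarith
    have h8 := hc (ν + i) (by omega) w hw0 hwe
    have h9 := hM' ν (ν + i) (by omega) (by omega)
    have h10 := hM' (ν + 1) (ν + i + 1) (by omega) (by omega)
    have h11 := hM' (ν + j) (ν + 7) (by omega) (by omega)
    omega
  let F : Option (Fin 8) → ZMod 2 × (Fin 2 → ZMod 2) := fun x =>
    match x with
    | none => 0
    | some i => rs (z (ν + i))
  have hcard : Fintype.card (ZMod 2 × (Fin 2 → ZMod 2)) < Fintype.card (Option (Fin 8)) := by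
    rw [Fintype.card_prod, Fintype.card_fun, ZMod.card, Fintype.card_fin, Fintype.card_option,
      Fintype.card_fin]
    norm_num
  obtain ⟨x, y, hne, heq⟩ := Fintype.exists_ne_map_eq_of_card_lt F hcard
  match x, y with
  | none, none => exact absurd rfl hne
  | none, some j => exact (rs_ne hN (hz.1 (ν + j) (by omega)) heq.symm).elim
  | some i, none => exact (rs_ne hN (hz.1 (ν + i) (by omega)) heq).elim
  | some i, some j =>
    have heq' : rs (z (ν + i)) = rs (z (ν + j)) := heq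
    rcases lt_trichotomy (i : ℕ) (j : ℕ) with h | h | h
    · exact hfin i j h j.2 heq'.symm
    · exact absurd (by rw [Fin.ext h]) hne
    · exact hfin j i h i.2 heq'

theorem growth7 (a : ℕ → ℝ) (ν0 : ℕ) (hpos : ∀ ν, ν0 ≤ ν → 0 < a ν)
    (hstep : ∀ ν, ν0 ≤ ν → 2 * a (ν + 1) + a ν ≤ a (ν + 7)) (t : ℝ) (ht : 0 < t)
    (htt : t ^ 7 ≤ 2 * t + 1) :
    (t : EReal) ≤ liminf (fun ν : ℕ => ((a ν ^ (1 / (ν : ℝ)) : ℝ) : EReal)) atTop := by
  obtain ⟨A, hA, hA'⟩ : ∃ A : ℝ, 0 < A ∧ ∀ i, i < 7 → A * t ^ (ν0 + i) ≤ a (ν0 + i) := by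
    have hne : (Finset.range 7).Nonempty := ⟨0, by simp⟩
    obtain ⟨i0, hi0, hmin⟩ := Finset.exists_min_image (Finset.range 7)
      (fun i => a (ν0 + i) / t ^ (ν0 + i)) hne
    refine ⟨a (ν0 + i0) / t ^ (ν0 + i0), div_pos (hpos _ (by omega)) (by positivity), ?_⟩
    intro i hi
    have := hmin i (Finset.mem_range.2 hi)
    rwa [le_div_iff₀ (by positivity)] at this
  have hall : ∀ k, A * t ^ (ν0 + k) ≤ a (ν0 + k) := by
    intro k
    induction k using Nat.strong_induction_on with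
    | _ k ih =>
      rcases Nat.lt_or_ge k 7 with h | h
      · exact hA' k h
      · obtain ⟨l, rfl⟩ : ∃ l, k = l + 7 := ⟨k - 7, by omega⟩
        have h1 := ih l (by omega)
        have h2 := ih (l + 1) (by omega)
        have h3 := hstep (ν0 + l) (by omega)
        have e1 : ν0 + l + 1 = ν0 + (l + 1) := by ring
        have e2 : ν0 + l + 7 = ν0 + (l + 7) := by ring
        rw [e1, e2] at h3
        calc A * t ^ (ν0 + (l + 7)) = A * t ^ (ν0 + l) * t ^ 7 := by ring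
          _ ≤ A * t ^ (ν0 + l) * (2 * t + 1) := mul_le_mul_of_nonneg_left htt (by positivity)
          _ = 2 * (A * t ^ (ν0 + (l + 1))) + A * t ^ (ν0 + l) := by ring
          _ ≤ 2 * a (ν0 + (l + 1)) + a (ν0 + l) := by linarith
          _ ≤ _ := h3
  have hlow : ∀ ν : ℕ, ν0 + 1 ≤ ν → t * A ^ (1 / (ν : ℝ)) ≤ a ν ^ (1 / (ν : ℝ)) := by
    intro ν hν
    have hνr : (0 : ℝ) < ν := by exact_mod_cast (by omega : 0 < ν)
    have h1 := hall (ν - ν0)
    have e : ν0 + (ν - ν0) = ν := by omega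
    rw [e] at h1
    have h2 := Real.rpow_le_rpow (by positivity) h1 (by positivity : (0 : ℝ) ≤ 1 / (ν : ℝ))
    rw [Real.mul_rpow hA.le (by positivity), ← Real.rpow_natCast t ν, ← Real.rpow_mul ht.le,
      mul_one_div_cancel hνr.ne', Real.rpow_one] at h2
    linarith
  have hlim : Tendsto (fun ν : ℕ => t * A ^ (1 / (ν : ℝ))) atTop (nhds t) := by
    have h1 : Tendsto (fun ν : ℕ => A ^ (1 / (ν : ℝ))) atTop (nhds (A ^ (0 : ℝ))) :=
      (tendsto_const_nhds).rpow tendsto_one_div_atTop_nhds_zero_nat (Or.inl hA.ne')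
    rw [Real.rpow_zero] at h1
    have h2 := h1.const_mul t
    rwa [mul_one] at h2
  have hlim' : Tendsto (fun ν : ℕ => ((t * A ^ (1 / (ν : ℝ)) : ℝ) : EReal)) atTop
      (nhds (t : EReal)) := (continuous_coe_real_ereal.tendsto _).comp hlim
  rw [← hlim'.liminf_eq]
  refine liminf_le_liminf ?_
  filter_upwards [eventually_ge_atTop (ν0 + 1)] with ν hν
  exact_mod_cast hlow ν hν

end Pool.Agent.TH970.GB.Plane
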