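import Pool.Agent.TH970.GB.Core

/-! The steps of the growth of best approximations. -/

set_option autoImplicit false

open Filter

namespace Pool.Agent.TH970.GB

variable {m n : ℕ} {N1 : (Fin m → ℝ) → ℝ} {N2 : (Fin n → ℝ) → ℝ}
  {Θ : Matrix (Fin n) (Fin m) ℝ}

theorem pair3 (h1 : IsNorm N1) (h2 : IsNorm N2) {a b : (Fin m → ℤ) × (Fin n → ℤ)}
    (ha : IsBest N1 N2 Θ a) (hb : IsBest N1 N2 Θ b) (hab : N1 (cv a.1) < N1 (cv b.1))
    (s : ℤ) (hs : s = 1 ∨ s = -1) (h : res 3 b = s • res 3 a) :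
    2 * N1 (cv a.1) < N1 (cv b.1) := by
  obtain ⟨w, hw⟩ := exists_div 3 (b - s • a) (by rw [res_sub, h, sub_self])
  have h3 := core h1 h2 ha hb hab 3 s (by norm_num) hs w (by exact_mod_cast hw)
  have h4 := h1.sub_le (cv b.1) ((s : ℝ) • cv a.1)
  rw [h1.smul] at h4
  have hsabs : |(s : ℝ)| = 1 := by rcases hs with h | h <;> rw [h] <;> norm_num
  rw [hsabs, one_mul] at h4
  push_cast at h3
  linarith

theorem step3 (h1 : IsNorm N1) (h2 : IsNorm N2) (z : ℕ → (Fin m → ℤ) × (Fin n → ℤ))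
    (hz : ∀ ν, 1 ≤ ν → IsBest N1 N2 Θ (z ν))
    (hM : ∀ i j, 1 ≤ i → i < j → N1 (cv (z i).1) < N1 (cv (z j).1)) (ν : ℕ) (hν : 1 ≤ ν) :
    2 * N1 (cv (z ν).1) < N1 (cv (z (ν + (3 ^ (m + n) - 1) / 2)).1) := by
  classical
  have hodd : 2 * ((3 ^ (m + n) - 1) / 2) + 1 = 3 ^ (m + n) := by
    obtain ⟨t, ht⟩ : Odd (3 ^ (m + n)) := Odd.pow (by decide)
    rw [ht]
    omega
  set K := (3 ^ (m + n) - 1) / 2 with hK
  have hM' : ∀ i j, 1 ≤ i → i ≤ j → N1 (cv (z i).1) ≤ N1 (cv (z j).1) := by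
    intro i j hi hij
    rcases Nat.eq_or_lt_of_le hij with h | h
    · rw [h]
    · exact (hM i j hi h).le
  let F : Fin (K + 1) × Bool → (Fin m → ZMod 3) × (Fin n → ZMod 3) := fun x =>
    (if x.2 then (1 : ℤ) else -1) • res 3 (z (ν + x.1))
  have hcard : Fintype.card ((Fin m → ZMod 3) × (Fin n → ZMod 3)) <
      Fintype.card (Fin (K + 1) × Bool) := by
    rw [Fintype.card_prod, Fintype.card_fun, Fintype.card_fun, ZMod.card, Fintype.card_fin,
      Fintype.card_fin, Fintype.card_prod, Fintype.card_fin, Fintype.card_bool, ← pow_add]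
    omega
  obtain ⟨⟨i, b⟩, ⟨j, c⟩, hne, heq⟩ := Fintype.exists_ne_map_eq_of_card_lt F hcard
  have hfin : ∀ i j : ℕ, i < j → j < K + 1 → ∀ s : ℤ, (s = 1 ∨ s = -1) →
      res 3 (z (ν + j)) = s • res 3 (z (ν + i)) →
      2 * N1 (cv (z ν).1) < N1 (cv (z (ν + K)).1) := by
    intro i j hij hj s hs h
    have h3 := pair3 h1 h2 (hz (ν + i) (by omega)) (hz (ν + j) (by omega))
      (hM _ _ (by omega) (by omega)) s hs h
    have h4 := hM' ν (ν + i) hν (by omega)
    have h5 := hM' (ν + j) (ν + K) (by omega) (by omega)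
    linarith
  have heq' : (if b then (1 : ℤ) else -1) • res 3 (z (ν + i)) =
      (if c then (1 : ℤ) else -1) • res 3 (z (ν + j)) := heq
  have hsgn : ∀ b c : Bool, ∃ s : ℤ, (s = 1 ∨ s = -1) ∧
      (if b then (1 : ℤ) else -1) = s * (if c then (1 : ℤ) else -1) ∧
      (if c then (1 : ℤ) else -1) = s * (if b then (1 : ℤ) else -1) := by
    intro b c
    cases b <;> cases c
    · exact ⟨1, Or.inl rfl, by norm_num, by norm_num⟩
    · exact ⟨-1, Or.inr rfl, by norm_num, by norm_num⟩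
    · exact ⟨-1, Or.inr rfl, by norm_num, by norm_num⟩
    · exact ⟨1, Or.inl rfl, by norm_num, by norm_num⟩
  have hsq : ∀ c : Bool, (if c then (1 : ℤ) else -1) * (if c then (1 : ℤ) else -1) = 1 := by
    intro c; cases c <;> norm_num
  obtain ⟨s, hs, hbs, hcs⟩ := hsgn b c
  have r1 : res 3 (z (ν + j)) = s • res 3 (z (ν + i)) := by
    have := congrArg (fun v => (if c then (1 : ℤ) else -1) • v) heq'
    simp only [smul_smul] at this
    rw [hsq, one_smul] at this
    rw [← this]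
    congr 1
    rw [hcs, mul_assoc, hsq, mul_one]
  have r2 : res 3 (z (ν + i)) = s • res 3 (z (ν + j)) := by
    rw [r1, smul_smul]
    rcases hs with h | h <;> rw [h] <;> norm_num
  rcases lt_trichotomy (i : ℕ) (j : ℕ) with h | h | h
  · exact hfin i j h j.2 s hs r1
  · exfalso
    have hij : i = j := Fin.ext h
    subst hij
    have hbc : b ≠ c := fun h => hne (by rw [h])
    have h0 : res 3 (z (ν + i)) = 0 := by
      have h5 : res 3 (z (ν + i)) = (-1 : ℤ) • res 3 (z (ν + i)) := by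
        cases b <;> cases c
        · exact absurd rfl hbc
        · simpa using heq'.symm
        · simpa using heq'
        · exact absurd rfl hbc
      have h6 : (3 : ℤ) • res 3 (z (ν + i)) = 0 := by
        refine Prod.ext ?_ ?_ <;> funext k
        · change (3 : ℤ) • ((res 3 (z (ν + i))).1 k) = 0
          have : ((3 : ℤ) : ZMod 3) = 0 := by decide
          rw [zsmul_eq_mul, this, zero_mul]
        · change (3 : ℤ) • ((res 3 (z (ν + i))).2 k) = 0
          have : ((3 : ℤ) : ZMod 3) = 0 := by decide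
          rw [zsmul_eq_mul, this, zero_mul]
      have h7 : (2 : ℤ) • res 3 (z (ν + i)) = 0 := by
        have : (2 : ℤ) • res 3 (z (ν + i)) = res 3 (z (ν + i)) - (-1 : ℤ) • res 3 (z (ν + i)) := by
          rw [neg_one_smul, sub_neg_eq_add, two_smul]
        rw [this, ← h5, sub_self]
      have h8 : res 3 (z (ν + i)) = (3 : ℤ) • res 3 (z (ν + i)) - (2 : ℤ) • res 3 (z (ν + i)) := by
        rw [← sub_smul]; norm_num
      rw [h8, h6, h7, sub_zero]
    obtain ⟨w, hw⟩ := exists_div 3 _ h0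
    exact primitive h1 h2 (hz (ν + i) (by omega)) 3 (by norm_num) w (by exact_mod_cast hw)
  · exact hfin j i h i.2 s hs r2

theorem step2 (h1 : IsNorm N1) (h2 : IsNorm N2) (z : ℕ → (Fin m → ℤ) × (Fin n → ℤ))
    (hz : ∀ ν, 1 ≤ ν → IsBest N1 N2 Θ (z ν))
    (hM : ∀ i j, 1 ≤ i → i < j → N1 (cv (z i).1) < N1 (cv (z j).1)) (ν : ℕ) (hν : 1 ≤ ν) :
    ∃ i j : ℕ, ν ≤ i ∧ i < j ∧ j ≤ ν + (2 ^ (m + n) - 1) ∧
      2 * N1 (cv (z i).1) < N1 (cv (z j).1 - cv (z i).1) ∧
      2 * N1 (cv (z i).1) < N1 (cv (z j).1 + cv (z i).1) := by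
  classical
  set K := 2 ^ (m + n) - 1 with hK
  have hK1 : K + 1 = 2 ^ (m + n) := by
    have : 0 < 2 ^ (m + n) := by positivity
    omega
  let F : Option (Fin (K + 1)) → (Fin m → ZMod 2) × (Fin n → ZMod 2) := fun x =>
    match x with
    | none => 0
    | some i => res 2 (z (ν + i))
  have hcard : Fintype.card ((Fin m → ZMod 2) × (Fin n → ZMod 2)) <
      Fintype.card (Option (Fin (K + 1))) := by
    rw [Fintype.card_prod, Fintype.card_fun, Fintype.card_fun, ZMod.card, Fintype.card_fin,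
      Fintype.card_fin, Fintype.card_option, Fintype.card_fin, ← pow_add]
    omega
  have hzero : ∀ i : ℕ, res 2 (z (ν + i)) = 0 → False := by
    intro i h0
    obtain ⟨w, hw⟩ := exists_div 2 _ h0
    exact primitive h1 h2 (hz (ν + i) (by omega)) 2 (by norm_num) w (by exact_mod_cast hw)
  have hfin : ∀ i j : ℕ, i < j → j < K + 1 → res 2 (z (ν + j)) = res 2 (z (ν + i)) →
      ∃ i j : ℕ, ν ≤ i ∧ i < j ∧ j ≤ ν + K ∧
      2 * N1 (cv (z i).1) < N1 (cv (z j).1 - cv (z i).1) ∧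
      2 * N1 (cv (z i).1) < N1 (cv (z j).1 + cv (z i).1) := by
    intro i j hij hj h
    refine ⟨ν + i, ν + j, by omega, by omega, by omega, ?_, ?_⟩
    · obtain ⟨w, hw⟩ := exists_div 2 (z (ν + j) - (1 : ℤ) • z (ν + i)) (by
        rw [res_sub, h, one_smul, sub_self])
      have := core h1 h2 (hz (ν + i) (by omega)) (hz (ν + j) (by omega))
        (hM _ _ (by omega) (by omega)) 2 1 (by norm_num) (Or.inl rfl) w (by exact_mod_cast hw)
      simpa using this
    · obtain ⟨w, hw⟩ := exists_div 2 (z (ν + j) - (-1 : ℤ) • z (ν + i)) (by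
        rw [res_sub, h, neg_one_smul, sub_neg_eq_add]
        refine Prod.ext ?_ ?_ <;> funext k
        · exact CharTwo.add_self_eq_zero _
        · exact CharTwo.add_self_eq_zero _)
      have := core h1 h2 (hz (ν + i) (by omega)) (hz (ν + j) (by omega))
        (hM _ _ (by omega) (by omega)) 2 (-1) (by norm_num) (Or.inr rfl) w (by exact_mod_cast hw)
      simpa using this
  obtain ⟨x, y, hne, heq⟩ := Fintype.exists_ne_map_eq_of_card_lt F hcard
  match x, y with
  | none, none => exact absurd rfl hne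
  | none, some j => exact (hzero j heq.symm).elim
  | some i, none => exact (hzero i heq).elim
  | some i, some j =>
    have heq' : res 2 (z (ν + i)) = res 2 (z (ν + j)) := heq
    rcases lt_trichotomy (i : ℕ) (j : ℕ) with h | h | h
    · exact hfin i j h j.2 heq'.symm
    · exact absurd (by rw [Fin.ext h]) hne
    · exact hfin j i h i.2 heq'

theorem growth_ge (a : ℕ → ℝ) (K : ℕ) (hK : 1 ≤ K) (c : ℝ) (hc : 1 ≤ c) (hpos : ∀ ν, 1 ≤ ν → 0 < a ν)
    (hmono : ∀ i j, 1 ≤ i → i ≤ j → a i ≤ a j) (hstep : ∀ ν, 1 ≤ ν → c * a ν ≤ a (ν + K)) :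
    ((c ^ (1 / (K : ℝ)) : ℝ) : EReal) ≤
      liminf (fun ν : ℕ => ((a ν ^ (1 / (ν : ℝ)) : ℝ) : EReal)) atTop := by
  have hc0 : 0 < c := by linarith
  have hKr : (1 : ℝ) ≤ K := by exact_mod_cast hK
  have hKp : (0 : ℝ) < K := by linarith
  have hit : ∀ q : ℕ, c ^ q * a 1 ≤ a (1 + q * K) := by
    intro q
    induction q with
    | zero => simp
    | succ q ih =>
      have h := hstep (1 + q * K) (by omega)
      have e : 1 + (q + 1) * K = 1 + q * K + K := by ring
      rw [e]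
      calc c ^ (q + 1) * a 1 = c * (c ^ q * a 1) := by ring
        _ ≤ c * a (1 + q * K) := mul_le_mul_of_nonneg_left ih hc0.le
        _ ≤ _ := h
  set A : ℝ := c ^ (-2 : ℝ) * a 1 with hA
  have hA0 : 0 < A := mul_pos (Real.rpow_pos_of_pos hc0 _) (hpos 1 le_rfl)
  have hlow : ∀ ν : ℕ, 1 ≤ ν → c ^ (1 / (K : ℝ)) * A ^ (1 / (ν : ℝ)) ≤ a ν ^ (1 / (ν : ℝ)) := by
    intro ν hν
    have hνr : (0 : ℝ) < ν := by exact_mod_cast hν
    set q := (ν - 1) / K with hq
    have h1 : 1 + q * K ≤ ν := by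
      have := Nat.div_mul_le_self (ν - 1) K
      rw [← hq] at this
      omega
    have h2 : (ν : ℝ) / K - 2 ≤ q := by
      have h3 : ν - 1 < K * (q + 1) := Nat.lt_mul_div_succ (ν - 1) (by omega)
      have h4 : ν < K * (q + 1) + 1 := by omega
      have h5 : (ν : ℝ) < K * ((q : ℝ) + 1) + 1 := by exact_mod_cast h4
      rw [sub_le_iff_le_add, div_le_iff₀ hKp]
      nlinarith
    have h3 : c ^ ((ν : ℝ) / K) * A ≤ a ν := by
      have h4 := hit q
      have h5 := hmono (1 + q * K) ν (by omega) h1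
      have h6 : c ^ ((ν : ℝ) / K) * c ^ (-2 : ℝ) ≤ c ^ q := by
        rw [← Real.rpow_add hc0, ← Real.rpow_natCast]
        exact Real.rpow_le_rpow_of_exponent_le hc (by linarith)
      have h7 : 0 < a 1 := hpos 1 le_rfl
      calc c ^ ((ν : ℝ) / K) * A = (c ^ ((ν : ℝ) / K) * c ^ (-2 : ℝ)) * a 1 := by rw [hA]; ring
        _ ≤ c ^ q * a 1 := mul_le_mul_of_nonneg_right h6 h7.le
        _ ≤ a ν := h4.trans h5
    have h4 := Real.rpow_le_rpow (by positivity) h3 (by positivity : (0 : ℝ) ≤ 1 / (ν : ℝ))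
    rw [Real.mul_rpow (by positivity) hA0.le, ← Real.rpow_mul hc0.le] at h4
    have e : (ν : ℝ) / K * (1 / (ν : ℝ)) = 1 / K := by field_simp
    rwa [e] at h4
  have hlim : Tendsto (fun ν : ℕ => c ^ (1 / (K : ℝ)) * A ^ (1 / (ν : ℝ))) atTop
      (nhds (c ^ (1 / (K : ℝ)))) := by
    have h1 : Tendsto (fun ν : ℕ => A ^ (1 / (ν : ℝ))) atTop (nhds (A ^ (0 : ℝ))) :=
      (tendsto_const_nhds).rpow tendsto_one_div_atTop_nhds_zero_nat (Or.inl hA0.ne')
    rw [Real.rpow_zero] at h1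
    have h2 := h1.const_mul (c ^ (1 / (K : ℝ)))
    rwa [mul_one] at h2
  have hlim' : Tendsto (fun ν : ℕ => ((c ^ (1 / (K : ℝ)) * A ^ (1 / (ν : ℝ)) : ℝ) : EReal)) atTop
      (nhds ((c ^ (1 / (K : ℝ)) : ℝ) : EReal)) :=
    (continuous_coe_real_ereal.tendsto _).comp hlim
  rw [← hlim'.liminf_eq]
  refine liminf_le_liminf ?_
  filter_upwards [eventually_ge_atTop 1] with ν hν
  exact_mod_cast hlow ν hν

end Pool.Agent.TH970.GB
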